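import Pool.Agent.N661.BH.Fin
import Pool.Agent.N661.BR.Fin3

/-!
# Project BH, second and third theorem
-/

set_option autoImplicit false
open MeasureTheory Filter Topology Complex ProbabilityTheory
open scoped ContDiff ENNReal

namespace Pool.Agent.N661.BH

open Pool.Agent.W745.RW (lap dx dy TF W)
open Pool.Agent.N661.BR (MW lin QV Bal KV SM)

/-- everything about a local limit -/
theorem limit_all {Ω : Set ℂ} (hΩ : IsOpen Ω) (hHP : Ω ⊆ HP) (hne : Ω.Nonempty)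
    (hA : IntegrableOn (fun z : ℂ => 1 / z.im ^ 2) Ω)
    {lam : ℕ → ℝ} (hpos : ∀ n, 0 < lam n) (hlam : Tendsto lam atTop atTop)
    {u : ℕ → ℂ → ℝ} (hu : ∀ n, ContDiffOn ℝ ∞ (u n) HP)
    (heq : ∀ n, ∀ z ∈ HP, z.im ^ 2 * lap (u n) z + lam n * u n z = 0)
    (hqe : IsQuantumErgodic Ω lam u)
    {μ : Measure MW} (hμp : IsProbabilityMeasure μ) (hμ : IsLocalLimit Ω lam u μ) :
    (∀ v : ℤ →₀ ℝ, Bal v → ∀ l : ℤ,
      ∫⁻ f : MW, ENNReal.ofReal (‖QV v l 1 f 0‖ ^ 2) ∂μ ≤ ENNReal.ofReal (KV v l)) ∧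
    (∫⁻ f : MW, ENNReal.ofReal (f 0 ^ 2) ∂μ ≤ 1) ∧
    ∀ (k : ℕ) (c : Fin k → ℂ) (a : Fin k → ℤ) (w : Fin k → ℂ),
      ∫⁻ f : MW, ENNReal.ofReal (‖∑ i, c i * W 1 f (a i) (w i)‖ ^ 2) ∂μ ≤
        ENNReal.ofReal (SM c a w) := by
  refine ⟨fun v hv l => allASM Ω hΩ hHP hne hA lam hpos hlam u hu heq hqe μ hμp hμ v hv l, ?_⟩
  obtain ⟨σ, hσ, hloc⟩ := hμ
  have H : Pool.Agent.N814.BHASM.Hyp Ω (fun n => lam (σ n)) (fun n => u (σ n)) :=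
    ⟨hΩ, hHP, hne, hA, fun n => hpos _, hlam.comp hσ.tendsto_atTop, fun n => hu _,
      fun n => heq _, fun φ hφ k => (hqe φ hφ k).comp hσ.tendsto_atTop⟩
  obtain ⟨φ, hD⟩ := Pool.Agent.N814.BHASM.dat H Pool.Agent.N87.BH.BDH Pool.Agent.N645.BH.ISOH
    Pool.Agent.N717.BHQUARTH.QUARTH hμp hloc
  exact ⟨Pool.Agent.N953.BRMASS.MASSH _ _ _ _ _ _ hD,
    Pool.Agent.N953.BRMASSG.MASSGH _ _ _ _ _ _ hD⟩

end Pool.Agent.N661.BH
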