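import Pool.Agent.N661.BH.Stm

/-!
# Project FM (helper661): local laws and fourth moments of eigenfunctions, definitions

`Ω` is an open subset of the hyperbolic plane (the half plane `im z > 0` with the area measure
`(im z)⁻² dx dy`), and `u n` are real functions on it.
-/

set_option autoImplicit false
open MeasureTheory Filter Topology Complex ProbabilityTheory
open scoped ContDiff

namespace Pool.Agent.N661.BH

open Pool.Agent.W745.RW (TF)
open Pool.Agent.N661.BR (MW lin)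

noncomputable section

/-- the local laws of `u n` over `Ω` converge to `μ` -/
def LocalLaws (Ω : Set ℂ) (lam : ℕ → ℝ) (u : ℕ → ℂ → ℝ) (μ : Measure MW) : Prop :=
  ∀ (k : ℕ) (w : Fin k → ℂ) (t : Fin k → ℝ),
    Tendsto (fun n => (area Ω fun z => frames (fun v => Complex.exp (I *
        ((∑ j, t j * loc (lam n) (u n) z (v j) : ℝ) : ℂ))) w) / area Ω fun _ => 1) atTop
      (𝓝 (∫ f, Complex.exp (I * (lin w t f : ℝ)) ∂μ))

/-- the local fourth moments are asymptotically Gaussian -/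
def GaussianFourth (Ω : Set ℂ) (u : ℕ → ℂ → ℝ) : Prop :=
  ∀ φ, TF Ω φ → Tendsto (fun n => ∫ z, φ z * u n z ^ 4 / z.im ^ 2) atTop
    (𝓝 (3 * ∫ z, φ z / z.im ^ 2))

/-- the fourth powers are locally uniformly integrable in `Ω` -/
def UnifInt4 (Ω : Set ℂ) (u : ℕ → ℂ → ℝ) : Prop :=
  ∀ φ, TF Ω φ → (∀ z, 0 ≤ φ z) → ∀ ε : ℝ, 0 < ε → ∃ M : ℝ, ∀ᶠ n in atTop,
    ∫ z, φ z * (if M < |u n z| then u n z ^ 4 else 0) / z.im ^ 2 ≤ ε

/-- the values of `u n` at a random point of `Ω` converge in law to `f 0` -/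
def OneLaw (Ω : Set ℂ) (u : ℕ → ℂ → ℝ) (μ : Measure MW) : Prop :=
  ∀ g : ℝ → ℝ, Continuous g → (∃ C : ℝ, ∀ x, |g x| ≤ C) →
    Tendsto (fun n => (∫ z in Ω, g (u n z) / z.im ^ 2) / ∫ z in Ω, 1 / z.im ^ 2) atTop
      (𝓝 (∫ f : MW, g (f 0) ∂μ))

end

end Pool.Agent.N661.BH
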