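import Pool.Agent.N661.BH.Defs3

/-!
# Project FM (helper661): laws of the values of eigenfunctions, definitions
-/

set_option autoImplicit false
open MeasureTheory Filter Topology Complex ProbabilityTheory
open scoped NNReal

namespace Pool.Agent.N661.BH

/-- the laws of the values of `u n` at a random point of `Ω` converge weakly to `ρ` -/
def ValueLaw (Ω : Set ℂ) (u : ℕ → ℂ → ℝ) (ρ : Measure ℝ) : Prop :=
  ∀ g : ℝ → ℝ, Continuous g → (∃ C : ℝ, ∀ x, |g x| ≤ C) →
    Tendsto (fun n => (∫ z in Ω, g (u n z) / z.im ^ 2) / ∫ z in Ω, 1 / z.im ^ 2) atTop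
      (𝓝 (∫ x, g x ∂ρ))

/-- a normal variance mixture: the law of a centred normal variable with random variance -/
def IsNormalMixture (ρ : Measure ℝ) : Prop :=
  ∃ Q : Measure ℝ≥0, IsProbabilityMeasure Q ∧ ρ = Q.bind (fun v => gaussianReal 0 v)

/-- an infinitely divisible law on the line -/
def IsDivisible (ρ : Measure ℝ) : Prop :=
  ∀ n : ℕ, 1 ≤ n → ∃ ρ' : Measure ℝ, IsProbabilityMeasure ρ' ∧
    ∀ t : ℝ, charFun ρ t = charFun ρ' t ^ n

end Pool.Agent.N661.BH
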