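import Pool.Agent.N661.BH.Defs3
import Pool.Agent.N661.BR.Stm6
import Pool.Agent.N814.BHY

/-!
# Project FM (helper661): local limits and fourth moments (MP_a54f13_nt, MP_a52643_an)
-/

set_option autoImplicit false
open MeasureTheory Filter Topology Complex ProbabilityTheory
open scoped ContDiff

namespace Pool.Agent.N661.BH

open Pool.Agent.W745.RW (lap dx dy TF W)
open Pool.Agent.N661.BR (MW lin AV IsStationary IsErgodic cov parallel)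
open Pool.Agent.N814.BHASM (Hyp)

noncomputable section

/-- FM/LV -/
def S_LV : Prop := ∀ (Ω : Set ℂ) (lam : ℕ → ℝ) (u : ℕ → ℂ → ℝ), Hyp Ω lam u →
  ∀ μ : Measure MW, IsProbabilityMeasure μ → LocalLaws Ω lam u μ → OneLaw Ω u μ

/-- FM/FM1 -/
def S_FM1 : Prop := ∀ (Ω : Set ℂ) (lam : ℕ → ℝ) (u : ℕ → ℂ → ℝ), Hyp Ω lam u →
  ∀ μ : Measure MW, IsProbabilityMeasure μ → LocalLaws Ω lam u μ → GaussianFourth Ω u →
  ∀ N : ℕ, 1 ≤ N → ∫⁻ f : MW, ENNReal.ofReal ((AV 0 N f 0 - 1) ^ 2) ∂μ ≤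
    ENNReal.ofReal (((N : ℝ) + 1) / (N : ℝ) ^ 2)

/-- FM/FM2 -/
def S_FM2 : Prop := ∀ (Ω : Set ℂ) (lam : ℕ → ℝ) (u : ℕ → ℂ → ℝ), Hyp Ω lam u →
  ∀ μ : Measure MW, IsProbabilityMeasure μ → OneLaw Ω u μ → GaussianFourth Ω u →
  ∫⁻ f : MW, ENNReal.ofReal (f 0 ^ 4) ∂μ = 3 → UnifInt4 Ω u

/-- FM/FM3 -/
def S_FM3 : Prop := ∀ (Ω : Set ℂ) (lam : ℕ → ℝ) (u : ℕ → ℂ → ℝ), Hyp Ω lam u →
  ∀ μ : Measure MW, IsProbabilityMeasure μ → OneLaw Ω u μ → UnifInt4 Ω u →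
  ∫⁻ f : MW, ENNReal.ofReal (f 0 ^ 4) ∂μ = 3 → GaussianFourth Ω u

/-- FM/FM4 -/
def S_FM4 : Prop := ∀ (Ω : Set ℂ) (lam : ℕ → ℝ) (u : ℕ → ℂ → ℝ), Hyp Ω lam u →
  ∀ μ : Measure MW, IsProbabilityMeasure μ → OneLaw Ω u μ → UnifInt4 Ω u →
  ∫⁻ f : MW, ENNReal.ofReal (f 0 ^ 2) ∂μ = 1

/-- FM/PLW: plane waves make the averages `AV` fluctuate -/
def S_PLW : Prop := ∀ (μ : Measure MW), IsProbabilityMeasure μ → IsStationary μ → IsErgodic μ →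
  Integrable (fun f : MW => f 0 ^ 4) μ → ∀ (m : ℝ) (ν : Measure ℝ), IsProbabilityMeasure ν →
  (∀ w w' : ℂ, ∫ f : MW, f w * f w' ∂μ = m * cov ν (w - w')) →
  ∀ N : ℕ → ℕ, Tendsto N atTop atTop →
  Tendsto (fun k => ∫⁻ f : MW, ENNReal.ofReal ((AV 0 (N k) f 0 - 1) ^ 2) ∂μ) atTop (𝓝 0) →
  m = 1 ∧ parallel ν = 0

end

end Pool.Agent.N661.BH
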