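import Pool.Agent.N661.BH.Fin2
import Pool.Agent.N661.BH.Stm3
import Pool.Agent.N661.BR.Fin5
import Pool.Agent.N661.BR.Fin4

/-!
# Project FM: assembly
-/

set_option autoImplicit false
open MeasureTheory Filter Topology Complex ProbabilityTheory
open scoped ContDiff ENNReal

namespace Pool.Agent.N661.BH

open Pool.Agent.W745.RW (lap dx dy TF W)
open Pool.Agent.N661.BR
open Pool.Agent.N814.BHASM (Hyp)

/-- the bounds for local limits, for a convergent sequence -/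
theorem limit_all' {Ω : Set ℂ} {lam : ℕ → ℝ} {u : ℕ → ℂ → ℝ} (H : Hyp Ω lam u)
    {μ : Measure MW} (hμp : IsProbabilityMeasure μ) (hμ : LocalLaws Ω lam u μ) :
    (∀ v : ℤ →₀ ℝ, Bal v → ∀ l : ℤ,
      ∫⁻ f : MW, ENNReal.ofReal (‖QV v l 1 f 0‖ ^ 2) ∂μ ≤ ENNReal.ofReal (KV v l)) ∧
    (∫⁻ f : MW, ENNReal.ofReal (f 0 ^ 2) ∂μ ≤ 1) ∧
    ∀ (k : ℕ) (c : Fin k → ℂ) (a : Fin k → ℤ) (w : Fin k → ℂ),
      ∫⁻ f : MW, ENNReal.ofReal (‖∑ i, c i * W 1 f (a i) (w i)‖ ^ 2) ∂μ ≤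
        ENNReal.ofReal (SM c a w) :=
  limit_all H.op H.sub H.ne H.int H.pos H.lim H.sm H.eq H.qe hμp ⟨id, strictMono_id, hμ⟩

section

variable {S : Type*} [MeasurableSpace S] {P : Measure S} [IsProbabilityMeasure P]
  {κ : Kernel S MW} [IsMarkovKernel κ] {μ : Measure MW} [IsProbabilityMeasure μ]

/-- small second moments of `AV 0 N - 1` pass to the components -/
theorem small_AV (hκ : P.bind κ = μ)
    (h : ∀ N : ℕ, 1 ≤ N → ∫⁻ f : MW, ENNReal.ofReal ((AV 0 N f 0 - 1) ^ 2) ∂μ ≤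
      ENNReal.ofReal (((N : ℝ) + 1) / (N : ℝ) ^ 2)) :
    ∀ᵐ s ∂P, Tendsto (fun k : ℕ => ∫⁻ f : MW, ENNReal.ofReal ((AV 0 (2 ^ k) f 0 - 1) ^ 2) ∂(κ s))
      atTop (𝓝 0) := by
  have hm : ∀ k : ℕ, Measurable (fun f : MW =>
      ENNReal.ofReal ((AV 0 (2 ^ k) f 0 - 1) ^ 2)) := fun k =>
    ENNReal.measurable_ofReal.comp (((meas_AV 0 _ 0).sub_const 1).pow_const 2)
  have hk : ∀ k : ℕ, ∫⁻ s, ∫⁻ f : MW, ENNReal.ofReal ((AV 0 (2 ^ k) f 0 - 1) ^ 2) ∂(κ s) ∂P ≤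
      ENNReal.ofReal (2 * (1 / 2 : ℝ) ^ k) := by
    intro k
    rw [← dis hκ (hm k)]
    refine (h (2 ^ k) Nat.one_le_two_pow).trans (ENNReal.ofReal_le_ofReal ?_)
    have h1 : (1 : ℝ) ≤ 2 ^ k := one_le_pow₀ (by norm_num)
    have h2 : (0 : ℝ) < 2 ^ k := by positivity
    push_cast
    rw [div_le_iff₀ (by positivity), one_div, inv_pow]
    have h3 : 2 * ((2 : ℝ) ^ k)⁻¹ * (2 ^ k) ^ 2 = 2 * 2 ^ k := by
      field_simp
    rw [h3]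
    linarith
  have hs : ∑' k : ℕ, ∫⁻ s, ∫⁻ f : MW, ENNReal.ofReal ((AV 0 (2 ^ k) f 0 - 1) ^ 2) ∂(κ s) ∂P
      ≠ ⊤ := by
    refine ne_top_of_le_ne_top ?_ (ENNReal.tsum_le_tsum hk)
    have hsum : Summable (fun k : ℕ => 2 * (1 / 2 : ℝ) ^ k) :=
      (summable_geometric_of_lt_one (by norm_num) (by norm_num)).mul_left 2
    rw [← ENNReal.ofReal_tsum_of_nonneg (fun k => by positivity) hsum]
    exact ENNReal.ofReal_ne_top
  have hmeas : ∀ k : ℕ, Measurable fun s =>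
      ∫⁻ f : MW, ENNReal.ofReal ((AV 0 (2 ^ k) f 0 - 1) ^ 2) ∂(κ s) :=
    fun k => (hm k).lintegral_kernel
  rw [← lintegral_tsum fun k => (hmeas k).aemeasurable] at hs
  have h5 := ae_lt_top' (Measurable.tsum hmeas).aemeasurable hs
  filter_upwards [h5] with s hs
  exact ENNReal.tendsto_atTop_zero_of_tsum_ne_top hs.ne

/-- the fourth moment of a mixture -/
theorem mix4 (hκ : P.bind κ = μ) (h : ∀ᵐ s ∂P, Integrable (fun f : MW => f 0 ^ 4) (κ s) ∧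
      ∫ f : MW, f 0 ^ 4 ∂(κ s) = 3) :
    ∫⁻ f : MW, ENNReal.ofReal (f 0 ^ 4) ∂μ = 3 := by
  have hm : Measurable (fun f : MW => ENNReal.ofReal (f 0 ^ 4)) :=
    ENNReal.measurable_ofReal.comp ((meas_eval 0).pow_const 4)
  rw [dis hκ hm]
  have h1 : ∀ᵐ s ∂P, ∫⁻ f : MW, ENNReal.ofReal (f 0 ^ 4) ∂(κ s) = 3 := by
    filter_upwards [h] with s hs
    rw [← ofReal_integral_eq_lintegral_ofReal hs.1 (Eventually.of_forall fun f => by positivity),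
      hs.2]
    norm_num
  rw [lintegral_congr_ae h1]
  simp

/-- the components of the local laws under Gaussian fourth moments -/
theorem comp_of_gf (hPLW : S_PLW) (hFM1 : S_FM1) {Ω : Set ℂ} {lam : ℕ → ℝ} {u : ℕ → ℂ → ℝ}
    (H : Hyp Ω lam u) (hμ : LocalLaws Ω lam u μ) (hκ : P.bind κ = μ)
    (herg : ∀ᵐ s ∂P, IsStationary (κ s) ∧ IsErgodic (κ s)) (m : S → ℝ) (ν : Kernel S ℝ)
    [IsMarkovKernel ν]
    (hν : ∀ᵐ s ∂P, ∀ w w' : ℂ, ∫ f : MW, f w * f w' ∂(κ s) = m s * cov (ν s) (w - w'))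
    (hG : GaussianFourth Ω u) :
    ∀ᵐ s ∂P, (Integrable (fun f : MW => f 0 ^ 4) (κ s) ∧ ∫ f : MW, f 0 ^ 4 ∂(κ s) = 3) ∧
      m s = 1 ∧ parallel (ν s) = 0 := by
  obtain ⟨h1, h2, _⟩ := limit_all' H inferInstance hμ
  filter_upwards [comp4 h1 h2 hκ m ν herg hν, small_AV hκ (hFM1 Ω lam u H μ inferInstance hμ hG),
    herg, hν] with s h4 ha he hs
  obtain ⟨e1, e2⟩ := hPLW (κ s) inferInstance he.1 he.2 h4.1 (m s) (ν s) inferInstance hs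
    (fun k => 2 ^ k) (tendsto_pow_atTop_atTop_of_one_lt (by norm_num)) ha
  refine ⟨⟨h4.1, ?_⟩, e1, e2⟩
  rw [h4.2, e1, e2]
  norm_num

/-- no loss of mass and no plane waves -/
theorem comp_of_np (hFM4 : S_FM4) (hLV : S_LV) {Ω : Set ℂ} {lam : ℕ → ℝ} {u : ℕ → ℂ → ℝ}
    (H : Hyp Ω lam u) (hμ : LocalLaws Ω lam u μ) (hκ : P.bind κ = μ)
    (herg : ∀ᵐ s ∂P, IsStationary (κ s) ∧ IsErgodic (κ s)) (m : S → ℝ) (ν : Kernel S ℝ)
    [IsMarkovKernel ν]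
    (hν : ∀ᵐ s ∂P, ∀ w w' : ℂ, ∫ f : MW, f w * f w' ∂(κ s) = m s * cov (ν s) (w - w'))
    (hU : UnifInt4 Ω u) (hp : ∀ᵐ s ∂P, m s ^ 2 * parallel (ν s) = 0) :
    ∀ᵐ s ∂P, Good (κ s) ∧ (∀ w : ℂ, ∫ f : MW, f w ∂(κ s) = 0) ∧
      ∀ a b c : ℂ, ∫ f : MW, f a * f b * f c ∂(κ s) = 0 := by
  classical
  obtain ⟨h1, h2, _⟩ := limit_all' H inferInstance hμ
  have hl := hFM4 Ω lam u H μ inferInstance (hLV Ω lam u H μ inferInstance hμ) hU
  have hvar : ∫ f : MW, f 0 ^ 2 ∂μ = 1 := by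
    rw [integral_eq_lintegral_of_nonneg_ae (Eventually.of_forall fun f => by positivity)
      ((meas_eval 0).pow_const 2).aestronglyMeasurable, hl]
    simp
  refine ergodic_case3 h1 hvar hκ m (fun s => if m s = 0 then unif else ν s) ?_ herg
  filter_upwards [hν, hp] with s hs hps
  by_cases hm : m s = 0
  · simp only [hm, if_true]
    refine ⟨inferInstance, Pool.Agent.N141.BRUNIF.par, fun w w' => ?_⟩
    rw [hs, hm, zero_mul, zero_mul]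
  · simp only [hm, if_false]
    refine ⟨inferInstance, ?_, hs⟩
    rcases mul_eq_zero.1 hps with h | h
    · exact absurd (pow_eq_zero_iff (two_ne_zero)|>.1 h) hm
    · exact h

theorem J0_zero : J0 0 = 1 := by
  unfold J0
  simp only [zero_mul, Real.cos_zero, intervalIntegral.integral_const, sub_zero, smul_eq_mul,
    mul_one]
  have := Real.pi_pos
  field_simp

omit [IsProbabilityMeasure μ] in
theorem good4 {ρ : Measure MW} (h : Good ρ) :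
    Integrable (fun f : MW => f 0 ^ 4) ρ ∧ ∫ f : MW, f 0 ^ 4 ∂ρ = 3 := by
  refine ⟨h.fin 0, ?_⟩
  have h1 := h.four 0 0 0 0
  simp only [sub_self, norm_zero, J0_zero] at h1
  have h2 : ∫ f : MW, f 0 ^ 4 ∂ρ = ∫ f : MW, f 0 * f 0 * f 0 * f 0 ∂ρ :=
    integral_congr_ae (Eventually.of_forall fun f => by
      show f 0 ^ 4 = f 0 * f 0 * f 0 * f 0
      ring)
  rw [h2, h1]
  norm_num

/-- the equivalence -/
theorem fourth (hLV : S_LV) (hFM1 : S_FM1) (hFM2 : S_FM2) (hFM3 : S_FM3) (hFM4 : S_FM4)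
    (hPLW : S_PLW) {Ω : Set ℂ} {lam : ℕ → ℝ} {u : ℕ → ℂ → ℝ}
    (H : Hyp Ω lam u) (hμ : LocalLaws Ω lam u μ) (hκ : P.bind κ = μ)
    (herg : ∀ᵐ s ∂P, IsStationary (κ s) ∧ IsErgodic (κ s)) (m : S → ℝ) (ν : Kernel S ℝ)
    [IsMarkovKernel ν]
    (hν : ∀ᵐ s ∂P, ∀ w w' : ℂ, ∫ f : MW, f w * f w' ∂(κ s) = m s * cov (ν s) (w - w')) :
    (GaussianFourth Ω u ↔ UnifInt4 Ω u ∧ ∀ᵐ s ∂P, m s ^ 2 * parallel (ν s) = 0) ∧
    (GaussianFourth Ω u → ∀ᵐ s ∂P, Gau4 (κ s) ∧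
      ∀ w w' : ℂ, ∫ f : MW, f w * f w' ∂(κ s) = J0 ‖w - w'‖) := by
  have hL := hLV Ω lam u H μ inferInstance hμ
  have key : GaussianFourth Ω u → UnifInt4 Ω u ∧ ∀ᵐ s ∂P, m s ^ 2 * parallel (ν s) = 0 := by
    intro hG
    have h := comp_of_gf hPLW hFM1 H hμ hκ herg m ν hν hG
    refine ⟨hFM2 Ω lam u H μ inferInstance hL hG (mix4 hκ (h.mono fun s hs => hs.1)),
      h.mono fun s hs => ?_⟩
    rw [hs.2.2, mul_zero]
  refine ⟨⟨key, fun h => ?_⟩, fun hG => ?_⟩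
  · have h1 := comp_of_np hFM4 hLV H hμ hκ herg m ν hν h.1 h.2
    exact hFM3 Ω lam u H μ inferInstance hL h.1 (mix4 hκ (h1.mono fun s hs => good4 hs.1))
  · obtain ⟨h1, h2⟩ := key hG
    filter_upwards [comp_of_np hFM4 hLV H hμ hκ herg m ν hν h1 h2] with s hs
    refine ⟨⟨hs.2.1, hs.1.fin, hs.2.2, fun a b c d => ?_⟩, hs.1.two⟩
    rw [hs.1.four, hs.1.two, hs.1.two, hs.1.two, hs.1.two, hs.1.two, hs.1.two]

end

end Pool.Agent.N661.BH
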