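import Pool.Agent.N661.BH.FM
import Pool.Agent.N953.FMLV
import Pool.Agent.N232.FMFM1
import Pool.Agent.N232.FMPLW
import Pool.Agent.N8.FMFM2
import Pool.Agent.N322.FMFM3
import Pool.Agent.N721.FMFM4

/-!
# Project FM: the parts are complete
-/

set_option autoImplicit false
open MeasureTheory Filter Topology Complex ProbabilityTheory
open scoped ContDiff ENNReal

namespace Pool.Agent.N661.BH

open Pool.Agent.N661.BR
open Pool.Agent.N814.BHASM (Hyp)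

variable {S : Type*} [MeasurableSpace S] {P : Measure S} [IsProbabilityMeasure P]
  {κ : Kernel S MW} [IsMarkovKernel κ] {μ : Measure MW} [IsProbabilityMeasure μ]

theorem fourth' {Ω : Set ℂ} {lam : ℕ → ℝ} {u : ℕ → ℂ → ℝ}
    (H : Hyp Ω lam u) (hμ : LocalLaws Ω lam u μ) (hκ : P.bind κ = μ)
    (herg : ∀ᵐ s ∂P, IsStationary (κ s) ∧ IsErgodic (κ s)) (m : S → ℝ) (ν : Kernel S ℝ)
    [IsMarkovKernel ν]
    (hν : ∀ᵐ s ∂P, ∀ w w' : ℂ, ∫ f : MW, f w * f w' ∂(κ s) = m s * cov (ν s) (w - w')) :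
    (GaussianFourth Ω u ↔ UnifInt4 Ω u ∧ ∀ᵐ s ∂P, m s ^ 2 * parallel (ν s) = 0) ∧
    (GaussianFourth Ω u → ∀ᵐ s ∂P, Gau4 (κ s) ∧
      ∀ w w' : ℂ, ∫ f : MW, f w * f w' ∂(κ s) = J0 ‖w - w'‖) :=
  fourth Pool.Agent.N953.FMLV.LV Pool.Agent.N232.FMFM1.FM1 Pool.Agent.N8.FMFM2.FM2
    Pool.Agent.N322.FMFM3.FM3 Pool.Agent.N721.FMFM4.FM4 Pool.Agent.N232.FMPLW.PLW H hμ hκ herg m ν hν

end Pool.Agent.N661.BH
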