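import Pool.Agent.N661.BR.Fin
import Pool.Agent.N645.BHISOH
import Pool.Agent.N738.BHABS
import Pool.Agent.N814.BHASM
import Pool.Agent.N87.BHBDH
import Pool.Agent.N717.BHQUARTH

/-!
# Project BH: all parts
-/

set_option autoImplicit false

namespace Pool.Agent.N661.BH

theorem allASM : S_ASM := Pool.Agent.N814.BHASM.ASM Pool.Agent.N87.BH.BDH Pool.Agent.N645.BH.ISOH
  Pool.Agent.N717.BHQUARTH.QUARTH Pool.Agent.N738.BHABS.ABS

end Pool.Agent.N661.BH
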