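import Pool.Agent.N661.BR.Stm
import Pool.Agent.Y265.HY.Z

/-!
# Project BH (helper661, MP_4fa179_mp): limits of eigenfunctions of hyperbolic surfaces

The hyperbolic plane is the half plane `im z > 0` with the metric `|dz|² / (im z)²`.
-/

set_option autoImplicit false
open MeasureTheory Filter Topology Complex ProbabilityTheory
open scoped ContDiff

namespace Pool.Agent.N661.BH

open Pool.Agent.W745.RW (lap dx dy TF W)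
open Pool.Agent.Y265.RW (sy rr)
open Pool.Agent.Y265.HY (SY FW)
open Pool.Agent.N661.BR (MW lin QV Bal KV)

noncomputable section

/-- the upper half plane -/
def HP : Set ℂ := {z | 0 < z.im}

/-- the frame derivative `(y/√λ) (∂x - i ∂y)` -/
def D (lam : ℝ) (f : ℂ → ℂ) (z : ℂ) : ℂ :=
  ((z.im / √lam : ℝ) : ℂ) * (dx f z - I * dy f z)

/-- `∫_Ω g dvol` for the hyperbolic area measure -/
def area (Ω : Set ℂ) (g : ℂ → ℂ) : ℂ := ∫ z in Ω, ((1 / z.im ^ 2 : ℝ) : ℂ) * g z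

/-- the function `u` near `z`, in coordinates `w` in which the metric multiplied by `λ` is
Euclidean up to errors `O(λ^{-1/2})` -/
def loc (lam : ℝ) (u : ℂ → ℝ) (z w : ℂ) : ℝ := u (z + ((z.im / √lam : ℝ) : ℂ) * w)

/-- the mean of `G` over all rotations and reflections of the points `w j` -/
def frames {k : ℕ} (G : (Fin k → ℂ) → ℂ) (w : Fin k → ℂ) : ℂ :=
  ((1 / (4 * Real.pi) : ℝ) : ℂ) * ∫ θ in (0:ℝ)..(2 * Real.pi),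
    (G (fun j => Complex.exp (θ * I) * w j) + G (fun j => Complex.exp (θ * I) * starRingEnd ℂ (w j)))

/-- `μ` is the limit along a subsequence of the laws of the function `loc (lam n) (u n) z`, seen in
a random orthonormal frame at a random point `z` of `Ω`, in the sense of convergence of all
finite dimensional distributions (stated in terms of characteristic functions) -/
def IsLocalLimit (Ω : Set ℂ) (lam : ℕ → ℝ) (u : ℕ → ℂ → ℝ) (μ : Measure MW) : Prop :=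
  ∃ σ : ℕ → ℕ, StrictMono σ ∧ ∀ (k : ℕ) (w : Fin k → ℂ) (t : Fin k → ℝ),
    Tendsto (fun n => (area Ω fun z => frames (fun v => Complex.exp (I *
        ((∑ j, t j * loc (lam (σ n)) (u (σ n)) z (v j) : ℝ) : ℂ))) w) / area Ω fun _ => 1) atTop
      (𝓝 (∫ f, Complex.exp (I * (lin w t f : ℝ)) ∂μ))

/-- `u n` is quantum ergodic in the unit cotangent bundle over `Ω` -/
def IsQuantumErgodic (Ω : Set ℂ) (lam : ℕ → ℝ) (u : ℕ → ℂ → ℝ) : Prop :=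
  ∀ φ, TF Ω φ → ∀ k : ℕ, Tendsto (fun n => area Ω fun z => (φ z : ℂ) *
    ((u n z : ℂ) * (D (lam n))^[k] (fun w => (u n w : ℂ)) z)) atTop
    (𝓝 (if k = 0 then area Ω (fun z => (φ z : ℂ)) else 0))

/-! ### Statements -/

/-- the real linear map `z ↦ z + s (im z) v` -/
def mv (s : ℝ) (v z : ℂ) : ℂ := z + ((s * z.im : ℝ) : ℂ) * v

/-- BH/BDH: uniform local bounds of displaced ladders -/
def S_BDH : Prop := ∀ (B : Set ℂ) (h : ℕ → ℝ) (w : ℤ → ℕ → ℂ → ℂ), SY B Complex.im h w →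
  ∀ φ, TF B φ → ∀ (κ : ℤ) (R : ℝ), ∃ C : ℝ, ∀ᶠ n in atTop, ∀ v : ℂ, ‖v‖ ≤ R →
    ∫ z, |φ z| * ‖w κ n (mv (h n) v z)‖ ^ 2 ≤ C

/-- BH/ISOH: second moments of displaced ladders -/
def S_ISOH : Prop := ∀ (B : Set ℂ) (h : ℕ → ℝ) (w : ℤ → ℕ → ℂ → ℂ), SY B Complex.im h w →
  ∀ φ, TF B φ → ∀ (k : ℕ) (c : Fin k → ℂ) (κ : Fin k → ℤ) (v : Fin k → ℂ),
  Tendsto (fun n => ∫ z, φ z * ‖∑ i, c i * w (κ i) n (mv (h n) (v i) z)‖ ^ 2) atTop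
    (𝓝 ((1 / (2 * Real.pi) * ∫ α in (0:ℝ)..(2 * Real.pi),
      ‖∑ i, c i * (sy α ^ (κ i) * Complex.exp ((rr (v i) α : ℂ) * I))‖ ^ 2) * ∫ z, φ z))

/-- BH/QUARTH: fourth moments of balanced quadratic expressions -/
def S_QUARTH : Prop := ∀ (Ω : Set ℂ), IsOpen Ω → Ω ⊆ HP → ∀ (lam : ℕ → ℝ), (∀ n, 0 < lam n) →
  Tendsto lam atTop atTop → ∀ (u : ℕ → ℂ → ℝ), (∀ n, ContDiffOn ℝ ∞ (u n) Ω) →
  (∀ n, ∀ z ∈ Ω, z.im ^ 2 * lap (u n) z + lam n * u n z = 0) → IsQuantumErgodic Ω lam u →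
  ∀ φ, TF Ω φ → (∀ z, 0 ≤ φ z) → ∀ v : ℤ →₀ ℝ, Bal v → ∀ l : ℤ,
  Tendsto (fun n => ∫ z, φ z * ‖∑ j ∈ v.support,
    (v j : ℂ) * (FW (lam n) (u n) j z * FW (lam n) (u n) (2 * l - j) z)‖ ^ 2) atTop
    (𝓝 (KV v l * ∫ z, φ z))

/-- the hypotheses of BH/ABS: random functions `X n a w` (the derivative of order `a` at the point
`w`, of the `n`-th random function) on a probability space, and weights `φ i` -/
structure Dat {Z : Type*} [MeasurableSpace Z] (P : Measure Z) (X : ℕ → ℤ → ℂ → Z → ℂ)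
    (φ : ℕ → Z → ℝ) (μ : Measure MW) : Prop where
  prob : IsProbabilityMeasure P
  prob' : IsProbabilityMeasure μ
  wm : ∀ i, Measurable (φ i)
  w01 : ∀ i z, φ i z ∈ Set.Icc (0 : ℝ) 1
  wlim : Tendsto (fun i => ∫ z, φ i z ∂P) atTop (𝓝 1)
  meas : ∀ a w, ∀ᶠ n in atTop, AEStronglyMeasurable (X n a w) P
  law0 : ∀ (i k : ℕ) (c w : Fin k → ℂ) (η : ℝ), 0 < η → ∀ᶠ n in atTop,
    ‖(∫ z, (φ i z : ℂ) * Complex.exp (I * (((∑ j, c j * X n 0 (w j) z).re : ℝ) : ℂ)) ∂P) -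
      ∫ f : MW, Complex.exp (I * (((∑ j, c j * W 1 f 0 (w j)).re : ℝ) : ℂ)) ∂μ‖ ≤
      1 - (∫ z, φ i z ∂P) + η
  isoInt : ∀ (i : ℕ) (a : ℤ) (w : ℂ), ∀ᶠ n in atTop,
    Integrable (fun z => φ i z * ‖X n a w z‖ ^ 2) P
  iso : ∀ (i k : ℕ) (c : Fin k → ℂ) (a : Fin k → ℤ) (w : Fin k → ℂ),
    Tendsto (fun n => ∫ z, φ i z * ‖∑ j, c j * X n (a j) (w j) z‖ ^ 2 ∂P) atTop
      (𝓝 ((1 / (2 * Real.pi) * ∫ α in (0:ℝ)..(2 * Real.pi),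
        ‖∑ j, c j * (sy α ^ (a j) * Complex.exp ((rr (w j) α : ℂ) * I))‖ ^ 2) * ∫ z, φ i z ∂P))
  quartInt : ∀ (i : ℕ) (v : ℤ →₀ ℝ) (l : ℤ), ∀ᶠ n in atTop, Integrable (fun z => φ i z *
    ‖∑ j ∈ v.support, (v j : ℂ) * (X n j 0 z * X n (2 * l - j) 0 z)‖ ^ 2) P
  quart : ∀ (i : ℕ) (v : ℤ →₀ ℝ), Bal v → ∀ l : ℤ, Tendsto (fun n => ∫ z, φ i z *
    ‖∑ j ∈ v.support, (v j : ℂ) * (X n j 0 z * X n (2 * l - j) 0 z)‖ ^ 2 ∂P) atTop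
      (𝓝 (KV v l * ∫ z, φ i z ∂P))

/-- BH/ABS -/
def S_ABS : Prop := ∀ (Z : Type) (_ : MeasurableSpace Z) (P : Measure Z)
  (X : ℕ → ℤ → ℂ → Z → ℂ) (φ : ℕ → Z → ℝ) (μ : Measure MW), Dat P X φ μ →
  ∀ v : ℤ →₀ ℝ, Bal v → ∀ l : ℤ,
    ∫⁻ f : MW, ENNReal.ofReal (‖QV v l 1 f 0‖ ^ 2) ∂μ ≤ ENNReal.ofReal (KV v l)

/-- BH/ASM -/
def S_ASM : Prop := ∀ (Ω : Set ℂ), IsOpen Ω → Ω ⊆ HP → Ω.Nonempty →
  IntegrableOn (fun z : ℂ => 1 / z.im ^ 2) Ω → ∀ (lam : ℕ → ℝ), (∀ n, 0 < lam n) →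
  Tendsto lam atTop atTop → ∀ (u : ℕ → ℂ → ℝ), (∀ n, ContDiffOn ℝ ∞ (u n) HP) →
  (∀ n, ∀ z ∈ HP, z.im ^ 2 * lap (u n) z + lam n * u n z = 0) → IsQuantumErgodic Ω lam u →
  ∀ μ : Measure MW, IsProbabilityMeasure μ → IsLocalLimit Ω lam u μ →
  ∀ v : ℤ →₀ ℝ, Bal v → ∀ l : ℤ,
    ∫⁻ f : MW, ENNReal.ofReal (‖QV v l 1 f 0‖ ^ 2) ∂μ ≤ ENNReal.ofReal (KV v l)

end

end Pool.Agent.N661.BH
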