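import Pool.Agent.N661.BH.FM2
import Pool.Agent.N278.BRGAU
import Pool.Agent.N661.BH.Defs4

/-!
# Project FM: the laws of the values
-/

set_option autoImplicit false
open MeasureTheory Filter Topology Complex ProbabilityTheory
open scoped ContDiff ENNReal NNReal

namespace Pool.Agent.N661.BH

open Pool.Agent.N661.BR
open Pool.Agent.N814.BHASM (Hyp)

/-- integrals of mixtures -/
theorem int_bind {S E : Type*} [MeasurableSpace S] [MeasurableSpace E] {P : Measure S}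
    [IsProbabilityMeasure P] {κ : Kernel S E} [IsMarkovKernel κ] {μ : Measure E}
    (hκ : P.bind κ = μ) {g : E → ℝ} (hg : Integrable g μ) :
    ∫ f, g f ∂μ = ∫ s, ∫ f, g f ∂(κ s) ∂P := by
  have h1 : (P ⊗ₘ κ).snd = μ := by rw [Measure.snd_compProd, ← hκ]
  have h2 : Integrable (fun p : S × E => g p.2) (P ⊗ₘ κ) := by
    rw [← h1] at hg
    exact hg.comp_measurable measurable_snd
  rw [← h1, Measure.snd, integral_map measurable_snd.aemeasurable (by
    have h3 := hg.aestronglyMeasurable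
    rwa [← h1, Measure.snd] at h3), Measure.integral_compProd h2]

theorem int_low {E : Type*} [MeasurableSpace E] {μ : Measure E} [IsProbabilityMeasure μ]
    {g : E → ℝ} (hm : Measurable g) (h : Integrable (fun f => g f ^ 4) μ) {k : ℕ} (hk : k ≤ 4) :
    Integrable (fun f => g f ^ k) μ := by
  refine ((integrable_const (1 : ℝ)).add h).mono' (hm.pow_const k).aestronglyMeasurable
    (Eventually.of_forall fun f => ?_)
  rw [Real.norm_eq_abs, abs_pow, Pi.add_apply]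
  have h4 : g f ^ 4 = |g f| ^ 4 := by
    rw [← abs_pow, abs_of_nonneg (by positivity)]
  rw [h4]
  rcases le_total (|g f|) 1 with h1 | h1
  · have := pow_le_one₀ (n := k) (abs_nonneg (g f)) h1
    have h2 : 0 ≤ |g f| ^ 4 := by positivity
    linarith
  · have := pow_le_pow_right₀ h1 hk
    linarith

section

variable {S : Type*} [MeasurableSpace S] {P : Measure S} [IsProbabilityMeasure P]
  {κ : Kernel S MW} [IsMarkovKernel κ] {μ : Measure MW} [IsProbabilityMeasure μ]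

/-- no loss of mass and no plane waves -/
theorem comp_of_np' {Ω : Set ℂ} {lam : ℕ → ℝ} {u : ℕ → ℂ → ℝ}
    (H : Hyp Ω lam u) (hμ : LocalLaws Ω lam u μ) (hκ : P.bind κ = μ)
    (herg : ∀ᵐ s ∂P, IsStationary (κ s) ∧ IsErgodic (κ s)) (m : S → ℝ) (ν : Kernel S ℝ)
    [IsMarkovKernel ν]
    (hν : ∀ᵐ s ∂P, ∀ w w' : ℂ, ∫ f : MW, f w * f w' ∂(κ s) = m s * cov (ν s) (w - w'))
    (hvar : ∫ f : MW, f 0 ^ 2 ∂μ = 1) (hp : ∀ᵐ s ∂P, m s ^ 2 * parallel (ν s) = 0) :
    ∀ᵐ s ∂P, Good (κ s) ∧ (∀ w : ℂ, ∫ f : MW, f w ∂(κ s) = 0) ∧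
      ∀ a b c : ℂ, ∫ f : MW, f a * f b * f c ∂(κ s) = 0 := by
  classical
  obtain ⟨h1, h2, _⟩ := limit_all' H inferInstance hμ
  refine ergodic_case3 h1 hvar hκ m (fun s => if m s = 0 then unif else ν s) ?_ herg
  filter_upwards [hν, hp] with s hs hps
  by_cases hm : m s = 0
  · simp only [hm, if_true]
    refine ⟨inferInstance, Pool.Agent.N141.BRUNIF.par, fun w w' => ?_⟩
    rw [hs, hm, zero_mul, zero_mul]
  · simp only [hm, if_false]
    refine ⟨inferInstance, ?_, hs⟩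
    rcases mul_eq_zero.1 hps with h | h
    · exact absurd (pow_eq_zero_iff (two_ne_zero)|>.1 h) hm
    · exact h

/-- the moments of the values -/
theorem moments (hκ : P.bind κ = μ) (hvar : ∫ f : MW, f 0 ^ 2 ∂μ = 1)
    (h : ∀ᵐ s ∂P, Good (κ s) ∧ (∀ w : ℂ, ∫ f : MW, f w ∂(κ s) = 0) ∧
      ∀ a b c : ℂ, ∫ f : MW, f a * f b * f c ∂(κ s) = 0) :
    Integrable (fun f : MW => f 0 ^ 4) μ ∧ ∫ f : MW, f 0 ∂μ = 0 ∧ ∫ f : MW, f 0 ^ 3 ∂μ = 0 ∧
      ∫ f : MW, f 0 ^ 4 ∂μ = 3 := by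
  have h4 := mix4 hκ (h.mono fun s hs => good4 hs.1)
  have i4 : Integrable (fun f : MW => f 0 ^ 4) μ := by
    refine ⟨((meas_eval 0).pow_const 4).aestronglyMeasurable, ?_⟩
    rw [hasFiniteIntegral_iff_ofReal (Eventually.of_forall fun f => by positivity), h4]
    exact ENNReal.ofNat_lt_top
  refine ⟨i4, ?_, ?_, ?_⟩
  · have i1 := int_low (meas_eval 0) i4 (k := 1) (by norm_num)
    simp only [pow_one] at i1
    rw [int_bind hκ i1, integral_congr_ae (h.mono fun s hs => hs.2.1 0), integral_zero]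
  · have i3 := int_low (meas_eval 0) i4 (k := 3) (by norm_num)
    rw [int_bind hκ i3]
    have : ∀ᵐ s ∂P, ∫ f : MW, f 0 ^ 3 ∂(κ s) = 0 := h.mono fun s hs =>
      (integral_congr_ae (Eventually.of_forall fun f => by
        show f 0 ^ 3 = f 0 * f 0 * f 0
        ring)).trans (hs.2.2 0 0 0)
    rw [integral_congr_ae this, integral_zero]
  · rw [integral_eq_lintegral_of_nonneg_ae (Eventually.of_forall fun f => by positivity)
      i4.aestronglyMeasurable, h4]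
    norm_num

end

theorem meas_g : Measurable (fun v : ℝ≥0 => gaussianReal 0 v) :=
  measurable_gaussianReal.comp (measurable_const.prodMk measurable_id)

theorem gauss_div (v : ℝ≥0) : IsDivisible (gaussianReal 0 v) := by
  intro n hn
  refine ⟨gaussianReal 0 (v / n), inferInstance, fun t => ?_⟩
  rw [charFun_gaussianReal, charFun_gaussianReal, ← Complex.exp_nat_mul]
  congr 1
  have : (n : ℂ) ≠ 0 := by exact_mod_cast (by omega : n ≠ 0)
  push_cast
  field_simp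
  ring

/-- a mixture of centred normal laws with the second and fourth moments of a normal law is normal -/
theorem mix_gauss {ρ : Measure ℝ} (h : IsNormalMixture ρ)
    (h4 : Integrable (fun x : ℝ => x ^ 4) ρ) (e2 : ∫ x, x ^ 2 ∂ρ = 1)
    (e4 : ∫ x, x ^ 4 ∂ρ = 3) : ρ = gaussianReal 0 1 := by
  obtain ⟨Q, hQ, rfl⟩ := h
  let κ : Kernel ℝ≥0 ℝ := ⟨fun v => gaussianReal 0 v, meas_g⟩
  haveI : IsMarkovKernel κ := ⟨fun v => by
    show IsProbabilityMeasure (gaussianReal 0 v)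
    infer_instance⟩
  haveI hρ : IsProbabilityMeasure (Q.bind (fun v => gaussianReal 0 v)) := by
    constructor
    rw [Measure.bind_apply MeasurableSet.univ meas_g.aemeasurable]
    simp
  have hκ : Q.bind κ = Q.bind (fun v => gaussianReal 0 v) := rfl
  have h2 : Integrable (fun x : ℝ => x ^ 2) (Q.bind (fun v => gaussianReal 0 v)) :=
    int_low measurable_id h4 (k := 2) (by norm_num)
  have v2 : ∀ v : ℝ≥0, ∫ x, x ^ 2 ∂(κ v) = (v : ℝ) := fun v => by
    show ∫ x, x ^ 2 ∂(gaussianReal 0 v) = (v : ℝ)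
    have := variance_fun_id_gaussianReal (μ := 0) (v := v)
    rw [variance_eq_integral (by fun_prop)] at this
    simpa using this
  have v4 : ∀ v : ℝ≥0, ∫ x, x ^ 4 ∂(κ v) = 3 * (v : ℝ) ^ 2 := fun v =>
    Pool.Agent.N278.BR.g_m4 v
  rw [int_bind hκ h2] at e2
  rw [int_bind hκ h4] at e4
  simp only [v2] at e2
  simp only [v4] at e4
  rw [integral_const_mul] at e4
  have i2 : Integrable (fun v : ℝ≥0 => (v : ℝ) ^ 2) Q := by
    by_contra hc
    rw [integral_undef hc] at e4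
    norm_num at e4
  have i1 : Integrable (fun v : ℝ≥0 => (v : ℝ)) Q := by
    by_contra hc
    rw [integral_undef hc] at e2
    norm_num at e2
  have i0 : ∫ v : ℝ≥0, ((v : ℝ) - 1) ^ 2 ∂Q = 0 := by
    have e : ∀ v : ℝ≥0, ((v : ℝ) - 1) ^ 2 = ((v : ℝ) ^ 2 - 2 * (v : ℝ)) + 1 := fun v => by ring
    simp only [e]
    have j1 : ∫ v : ℝ≥0, (((v : ℝ) ^ 2 - 2 * (v : ℝ)) + 1) ∂Q =
        (∫ v : ℝ≥0, ((v : ℝ) ^ 2 - 2 * (v : ℝ)) ∂Q) + ∫ _ : ℝ≥0, (1 : ℝ) ∂Q :=
      integral_add (i2.sub (i1.const_mul 2)) (integrable_const _)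
    have j2 : ∫ v : ℝ≥0, ((v : ℝ) ^ 2 - 2 * (v : ℝ)) ∂Q =
        (∫ v : ℝ≥0, (v : ℝ) ^ 2 ∂Q) - ∫ v : ℝ≥0, 2 * (v : ℝ) ∂Q :=
      integral_sub i2 (i1.const_mul 2)
    rw [j1, j2, integral_const_mul, e2]
    simp
    linarith
  have i3 : Integrable (fun v : ℝ≥0 => ((v : ℝ) - 1) ^ 2) Q := by
    have e : (fun v : ℝ≥0 => ((v : ℝ) - 1) ^ 2) =
        fun v : ℝ≥0 => ((v : ℝ) ^ 2 - 2 * (v : ℝ)) + 1 := by
      funext v; ring
    rw [e]
    exact (i2.sub (i1.const_mul 2)).add (integrable_const _)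
  rw [integral_eq_zero_iff_of_nonneg (fun v => by positivity) i3] at i0
  have hv : ∀ᵐ v ∂Q, gaussianReal 0 v = gaussianReal 0 1 := by
    filter_upwards [i0] with v hv
    have h1 : (v : ℝ) = 1 := by
      have h2 : ((v : ℝ) - 1) ^ 2 = 0 := hv
      have := pow_eq_zero_iff (two_ne_zero) |>.1 h2
      linarith
    have h2 : v = 1 := by exact_mod_cast h1
    rw [h2]
  ext A hA
  rw [Measure.bind_apply hA meas_g.aemeasurable,
    lintegral_congr_ae (hv.mono fun v hv => by rw [hv])]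
  simp

/-- laws with the moments of the normal law -/
theorem gauss_iff {ρ : Measure ℝ} [IsProbabilityMeasure ρ]
    (h4 : Integrable (fun x : ℝ => x ^ 4) ρ) (e1 : ∫ x, x ∂ρ = 0) (e2 : ∫ x, x ^ 2 ∂ρ = 1)
    (e4 : ∫ x, x ^ 4 ∂ρ = 3) :
    (ρ = gaussianReal 0 1 ↔ IsNormalMixture ρ) ∧ (ρ = gaussianReal 0 1 ↔ IsDivisible ρ) := by
  refine ⟨⟨?_, fun h => mix_gauss h h4 e2 e4⟩, ⟨?_, fun h => ?_⟩⟩
  · rintro rfl
    refine ⟨Measure.dirac 1, inferInstance, ?_⟩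
    rw [Measure.dirac_bind meas_g]
  · rintro rfl
    exact gauss_div 1
  · have hm : MemLp (id : ℝ → ℝ) 4 ρ := by
      have : (4 : ℝ≥0∞) = ((4 : ℕ) : ℝ≥0∞) := by norm_num
      rw [this, ← integrable_norm_rpow_iff aestronglyMeasurable_id (by norm_num) (by simp)]
      refine h4.congr (Eventually.of_forall fun x => ?_)
      have h5 : x ^ 4 = |x| ^ 4 := by rw [← abs_pow, abs_of_nonneg (by positivity)]
      simpa using h5
    have := allParts.id ρ inferInstance 1 hm e1 e2 (by rw [e4]; norm_num) h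
    rwa [Real.toNNReal_one] at this

section

variable {S : Type*} [MeasurableSpace S] {P : Measure S} [IsProbabilityMeasure P]
  {κ : Kernel S MW} [IsMarkovKernel κ] {μ : Measure MW} [IsProbabilityMeasure μ]

/-- the laws of the values -/
theorem values {Ω : Set ℂ} {lam : ℕ → ℝ} {u : ℕ → ℂ → ℝ}
    (H : Hyp Ω lam u) (hμ : LocalLaws Ω lam u μ) (hκ : P.bind κ = μ)
    (herg : ∀ᵐ s ∂P, IsStationary (κ s) ∧ IsErgodic (κ s)) (m : S → ℝ) (ν : Kernel S ℝ)
    [IsMarkovKernel ν]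
    (hν : ∀ᵐ s ∂P, ∀ w w' : ℂ, ∫ f : MW, f w * f w' ∂(κ s) = m s * cov (ν s) (w - w'))
    (hvar : ∫ f : MW, f 0 ^ 2 ∂μ = 1) (hp : ∀ᵐ s ∂P, m s ^ 2 * parallel (ν s) = 0) :
    ∃ ρ : Measure ℝ, IsProbabilityMeasure ρ ∧ ValueLaw Ω u ρ ∧
      Integrable (fun x : ℝ => x ^ 4) ρ ∧
      (∫ x, x ∂ρ = 0 ∧ ∫ x, x ^ 2 ∂ρ = 1 ∧ ∫ x, x ^ 3 ∂ρ = 0 ∧ ∫ x, x ^ 4 ∂ρ = 3) ∧
      (ρ = gaussianReal 0 1 ↔ IsNormalMixture ρ) ∧ (ρ = gaussianReal 0 1 ↔ IsDivisible ρ) := by
  obtain ⟨i4, m1, m3, m4⟩ := moments hκ hvar (comp_of_np' H hμ hκ herg m ν hν hvar hp)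
  have hm := meas_eval 0
  haveI : IsProbabilityMeasure (μ.map (fun f : MW => f 0)) :=
    Measure.isProbabilityMeasure_map hm.aemeasurable
  have hI : ∀ g : ℝ → ℝ, Continuous g →
      ∫ x, g x ∂(μ.map (fun f : MW => f 0)) = ∫ f : MW, g (f 0) ∂μ := fun g hg =>
    integral_map hm.aemeasurable hg.aestronglyMeasurable
  have j4 : Integrable (fun x : ℝ => x ^ 4) (μ.map (fun f : MW => f 0)) := by
    rw [integrable_map_measure (by fun_prop) hm.aemeasurable]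
    exact i4
  have e1 : ∫ x, x ∂(μ.map (fun f : MW => f 0)) = 0 := (hI (fun x => x) (by fun_prop)).trans m1
  have e2 : ∫ x, x ^ 2 ∂(μ.map (fun f : MW => f 0)) = 1 :=
    (hI (fun x => x ^ 2) (by fun_prop)).trans hvar
  have e3 : ∫ x, x ^ 3 ∂(μ.map (fun f : MW => f 0)) = 0 :=
    (hI (fun x => x ^ 3) (by fun_prop)).trans m3
  have e4 : ∫ x, x ^ 4 ∂(μ.map (fun f : MW => f 0)) = 3 :=
    (hI (fun x => x ^ 4) (by fun_prop)).trans m4
  refine ⟨μ.map (fun f : MW => f 0), inferInstance, ?_, j4, ⟨e1, e2, e3, e4⟩,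
    gauss_iff j4 e1 e2 e4⟩
  intro g hg hb
  rw [hI g hg]
  exact Pool.Agent.N953.FMLV.LV Ω lam u H μ inferInstance hμ g hg hb

end

end Pool.Agent.N661.BH
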